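import Pool.Agent.Y666.SP.Stm2

set_option autoImplicit false

/-! Project SP, part 2: existence and properties of two-stage pieces. -/

open Cardinal OrderDual

namespace Pool.Agent.Y901.SP

open Pool.Agent.Y666.SP

section basic

variable {α : Type}

theorem cd_mono {A B : Set α} (h : A ⊆ B) : cd A ≤ cd B := Cardinal.mk_le_mk_of_subset h

theorem cd_dual_le {A : Set αᵒᵈ} {B : Set α} (h : ∀ y ∈ A, ofDual y ∈ B) : cd A ≤ cd B := by
  refine Cardinal.mk_le_of_injective (f := fun y : A => (⟨ofDual y.1, h y.1 y.2⟩ : B)) ?_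
  intro y z hyz
  have h0 := Subtype.ext_iff.1 hyz
  have h1 : ofDual y.1 = ofDual z.1 := h0
  exact Subtype.ext (ofDual.injective h1)

theorem cd_dual_le' {A : Set α} {B : Set αᵒᵈ} (h : ∀ y ∈ A, toDual y ∈ B) : cd A ≤ cd B := by
  refine Cardinal.mk_le_of_injective (f := fun y : A => (⟨toDual y.1, h y.1 y.2⟩ : B)) ?_
  intro y z hyz
  have h0 := Subtype.ext_iff.1 hyz
  have h1 : toDual y.1 = toDual z.1 := h0
  exact Subtype.ext (toDual.injective h1)

variable [PartialOrder α]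

theorem Wd_dual {w : ℕ} (h : Wd α w) : Wd αᵒᵈ w := by
  classical
  intro s hs
  have h1 := h (s.image ofDual) (by
    intro a ha b hb hab hle
    rw [Finset.mem_coe, Finset.mem_image] at ha hb
    obtain ⟨a', ha', rfl⟩ := ha
    obtain ⟨b', hb', rfl⟩ := hb
    exact hs (by exact_mod_cast hb') (by exact_mod_cast ha')
      (fun h2 => hab (congrArg ofDual h2.symm)) hle)
  rwa [Finset.card_image_of_injective _ ofDual.injective] at h1

variable {κ : Cardinal.{0}} {E : Set α}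

/-- the basic fact -/
theorem mem_KBB (G : Set (KGerm κ E)) {x : α} (hx : x ∈ E) (hc : cd (Inc E x) < κ) :
    x ∈ KBB G := by
  refine ⟨hx, fun g _ => ?_⟩
  by_cases hxg : x ∈ g.carrier
  · exact Or.inl hxg
  · right
    intro q hq
    by_contra hcon
    have h1 := g.large q hq
    have h2 : {y | y ∈ g.carrier ∧ y ≤ q} ⊆ Inc E x := by
      rintro y ⟨hy, hyq⟩
      refine ⟨g.sub hy, fun h => ?_, fun h => hxg (g.up y hy x hx h)⟩
      have h3 : x ≤ q := h.trans hyq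
      rcases h3.lt_or_eq with h4 | h4
      · exact hcon h4
      · exact hxg (h4 ▸ hq)
    exact absurd ((h1.trans (cd_mono h2)).trans_lt hc) (lt_irrefl _)

end basic

theorem sel_ex (h1 : S_SEL) (h2 : S_KSYS) {α : Type} [PartialOrder α] {w : ℕ} (hw : Wd α w)
    (κ : Cardinal.{0}) (E : Set α) : ∃ G : Set (KGerm κ E), KSel G := by
  obtain ⟨G, a, b, c⟩ := h1 (KGerm κ E) kll (h2 α w hw κ E)
  exact ⟨G, ⟨a, b, c⟩⟩

/-- STPEX -/
theorem t_STPEX (h1 : S_SEL) (h2 : S_KSYS) : S_STPEX := by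
  intro α _ w hw κ hκ E x₀ hx₀ hc
  obtain ⟨G, hG⟩ := sel_ex h1 h2 hw κ E
  have hm : x₀ ∈ KBB G := mem_KBB G hx₀ hc
  obtain ⟨G', hG'⟩ := sel_ex h1 h2 (Wd_dual hw) κ (dS (KPc G x₀))
  have hm' : toDual x₀ ∈ KBB G' := by
    refine mem_KBB G' ?_ (lt_of_le_of_lt (cd_dual_le ?_) hc)
    · exact ⟨hm, fun g _ => Iff.rfl⟩
    · rintro y ⟨hy1, hy2, hy3⟩
      have hy4 : ofDual y ∈ KPc G x₀ := hy1
      exact ⟨hy4.1.1, fun h => hy3 h, fun h => hy2 h⟩
  exact ⟨{y | toDual y ∈ KPc G' (toDual x₀)}, KPc G x₀, G, G', ⟨hG, hm, rfl, hG', hm', rfl⟩⟩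

/-- FPROP -/
theorem t_FPROP (h : S_KSTAR) : S_FPROP := by
  rintro α _ w hw κ hκ x₀ E S ⟨G, hG, hx₀, rfl⟩
  refine ⟨fun y hy => hy.1.1, ⟨hx₀, fun g _ => Iff.rfl⟩, ?_, ?_, ?_⟩
  · intro a ha b hb y hy hay hyb
    have key : ∀ g ∈ G, (x₀ ∈ g.carrier → y ∈ g.carrier) ∧
        (x₀ ∉ g.carrier → ∀ q ∈ g.carrier, y < q) := by
      intro g hg
      constructor
      · intro hx
        exact g.up a ((ha.2 g hg).2 hx) y hy hay
      · intro hx q hq
        have hbg : b ∉ g.carrier := fun hb' => hx ((hb.2 g hg).1 hb')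
        rcases hb.1.2 g hg with h1 | h1
        · exact absurd h1 hbg
        · exact lt_of_le_of_lt hyb (h1 q hq)
    refine ⟨⟨hy, fun g hg => ?_⟩, fun g hg => ⟨fun hyg => ?_, fun hx => (key g hg).1 hx⟩⟩
    · by_cases hx : x₀ ∈ g.carrier
      · exact Or.inl ((key g hg).1 hx)
      · exact Or.inr ((key g hg).2 hx)
    · by_contra hx
      exact absurd ((key g hg).2 hx y hyg) (lt_irrefl _)
  · intro D hD hL x hx
    exact h α κ E G hG D (fun d hd => (hD hd).1) hL x hx.1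
      (fun d hd g hg => ((hD hd).2 g hg).trans (hx.2 g hg).symm)
  · intro x hx c1 c2 c3
    have hxB := mem_KBB G hx c1
    refine ⟨hxB, fun g hg => ⟨fun hxg => ?_, fun hxg => ?_⟩⟩
    · by_contra hx0
      have h1 : ∀ q ∈ g.carrier, x₀ < q := by
        rcases hx₀.2 g hg with h2 | h2
        · exact absurd h2 hx0
        · exact h2
      have h2 := g.large x hxg
      have h3 : {y | y ∈ g.carrier ∧ y ≤ x} ⊆ Bt E x₀ x := fun y hy =>
        ⟨g.sub hy.1, (h1 y hy.1).le, hy.2⟩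
      exact absurd ((h2.trans (cd_mono h3)).trans_lt c3) (lt_irrefl _)
    · by_contra hx0
      have h1 : ∀ q ∈ g.carrier, x < q := by
        rcases hxB.2 g hg with h2 | h2
        · exact absurd h2 hx0
        · exact h2
      have h2 := g.large x₀ hxg
      have h3 : {y | y ∈ g.carrier ∧ y ≤ x₀} ⊆ Bt E x x₀ := fun y hy =>
        ⟨g.sub hy.1, (h1 y hy.1).le, hy.2⟩
      exact absurd ((h2.trans (cd_mono h3)).trans_lt c2) (lt_irrefl _)

/-- STPPROP -/
theorem t_STPPROP (h : S_FPROP) : S_STPPROP := by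
  rintro α _ w hw κ hκ x₀ E S ⟨S₁, G, G', hd⟩
  obtain ⟨a1, a2, a3, a4, a5⟩ := h α w hw κ hκ x₀ E S₁ ⟨G, hd.selG, hd.memG, hd.eq₁⟩
  obtain ⟨b1, b2, b3, b4, b5⟩ := h αᵒᵈ w (Wd_dual hw) κ hκ (toDual x₀) (dS S₁) (dS S)
    ⟨G', hd.selG', hd.memG', hd.eq₂⟩
  have hSS : S ⊆ S₁ := fun y hy => b1 (show toDual y ∈ dS S from hy)
  refine ⟨hSS.trans a1, b2, ?_, ?_, ?_, ?_⟩
  · intro a ha b hb y hy hay hyb
    have hy1 : y ∈ S₁ := a3 a (hSS ha) b (hSS hb) y hy hay hyb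
    exact b3 (toDual b) hb (toDual a) ha (toDual y) hy1 hyb hay
  · intro D hD hL x hx
    exact a4 D (hD.trans hSS) hL x (hSS hx)
  · intro D hD hL x hx
    have hL' : KLarge κ (dS D) := by
      refine ⟨?_, ?_, ?_⟩
      · obtain ⟨d, hd⟩ := hL.1
        exact ⟨toDual d, hd⟩
      · intro a ha b hb hab
        have h1 := hL.2.1 (show ofDual a ∈ D from ha) (show ofDual b ∈ D from hb)
          (fun h2 => hab (ofDual.injective h2))
        exact h1.symm
      · intro d hd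
        refine (hL.2.2 (ofDual d) hd).trans (cd_dual_le' ?_)
        rintro y ⟨hy1, hy2⟩
        exact ⟨hy1, hy2⟩
    obtain ⟨d, hd1, hd2⟩ := b4 (dS D) (fun d hd => hD hd) hL' (toDual x) hx
    exact ⟨ofDual d, hd1, hd2⟩
  · intro x hx c1 c2 c3
    have hx1 : x ∈ S₁ := a5 x hx c1 c2 c3
    refine b5 (toDual x) hx1 (lt_of_le_of_lt (cd_dual_le ?_) c1)
      (lt_of_le_of_lt (cd_dual_le ?_) c3) (lt_of_le_of_lt (cd_dual_le ?_) c2)
    · rintro y ⟨hy1, hy2, hy3⟩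
      exact ⟨a1 hy1, fun h' => hy3 h', fun h' => hy2 h'⟩
    · rintro y ⟨hy1, hy2, hy3⟩
      exact ⟨a1 hy1, hy3, hy2⟩
    · rintro y ⟨hy1, hy2, hy3⟩
      exact ⟨a1 hy1, hy3, hy2⟩

end Pool.Agent.Y901.SP
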